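import Pool.Agent.H74.OLP.Targets2

/-!
# Board olp_modules, row MCY: the cyclic sequence of a cycle
-/

set_option autoImplicit false

open Pool.Agent.H74.OLP

namespace Pool.Agent.H79.OLP

theorem pf_MCY : T_MCY := by
  intro V G v p hp
  have hd3 : 3 ≤ p.length := hp.three_le_length
  obtain ⟨k, hk⟩ : ∃ k : ℤ → ℕ, ∀ i, k i = (i % (p.length : ℤ)).toNat := ⟨_, fun _ => rfl⟩
  have hdpos : (0 : ℤ) < p.length := by omega
  have hk0 : ∀ i, (k i : ℤ) = i % (p.length : ℤ) := fun i => by
    rw [hk, Int.toNat_of_nonneg (Int.emod_nonneg _ hdpos.ne')]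
  have hklt : ∀ i, k i < p.length := fun i => by
    have h1 := Int.emod_lt_of_pos i hdpos
    rw [← hk0] at h1
    exact_mod_cast h1
  obtain ⟨vt, hvt⟩ : ∃ vt : ℤ → V, ∀ i, vt i = p.getVert (k i) := ⟨_, fun _ => rfl⟩
  have hkk : ∀ i j, k i = k j ↔ (p.length : ℤ) ∣ i - j := by
    intro i j
    rw [← Int.natCast_inj, hk0, hk0, Int.emod_eq_emod_iff_emod_sub_eq_zero,
      Int.dvd_iff_emod_eq_zero]
  have h1 : ∀ i j, vt i = vt j ↔ (p.length : ℤ) ∣ i - j := by
    intro i j
    rw [hvt, hvt, ← hkk]
    constructor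
    · intro h
      have h2 := hklt i
      have h3 := hklt j
      exact hp.getVert_injOn' (by show k i ≤ p.length - 1; omega)
        (by show k j ≤ p.length - 1; omega) h
    · intro h
      rw [h]
  have hsucc : ∀ i, vt (i + 1) = p.getVert (k i + 1) := by
    intro i
    rw [hvt]
    have h2 := hklt i
    have he : (k (i + 1) : ℤ) = ((k i : ℤ) + 1) % (p.length : ℤ) := by
      rw [hk0 (i + 1), hk0 i, Int.emod_add_emod]
    by_cases h3 : k i + 1 < p.length
    · congr 1
      rw [Int.emod_eq_of_lt (by omega) (by omega)] at he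
      omega
    · have h3' : k i + 1 = p.length := by omega
      have h5 : (k i : ℤ) + 1 = p.length := by exact_mod_cast h3'
      rw [h5, Int.emod_self] at he
      have h6 : k (i + 1) = 0 := by omega
      rw [h6, h3', p.getVert_length, p.getVert_zero]
  have hkn : ∀ m : ℕ, m < p.length → k m = m := by
    intro m hm
    have h2 := hk0 m
    rw [Int.emod_eq_of_lt (by omega) (by omega)] at h2
    omega
  refine ⟨p.length, vt, hd3, h1, ?_, ?_, ?_⟩
  · intro i
    rw [hsucc, hvt]
    exact p.adj_getVert_succ (hklt i)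
  · intro e
    induction e using Sym2.ind with
    | _ x y =>
      rw [p.mk_mem_edges_iff_exists]
      constructor
      · rintro ⟨m, hm, he⟩
        refine ⟨m, ?_⟩
        rw [← he, hsucc, hvt, hkn m hm]
      · rintro ⟨i, he⟩
        refine ⟨k i, hklt i, ?_⟩
        rw [he, hsucc, hvt]
  · intro i j
    constructor
    · intro h
      rw [Sym2.eq_iff, h1, h1, h1, h1] at h
      rcases h with h | h
      · exact h.1
      · exfalso
        have h2 := dvd_sub h.2 h.1
        have h3 : (i + 1 - j) - (i - (j + 1)) = 2 := by ring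
        rw [h3] at h2
        have h4 := Int.le_of_dvd (by norm_num) h2
        omega
    · intro h
      have h2 : vt i = vt j := (h1 i j).2 h
      have h3 : vt (i + 1) = vt (j + 1) := (h1 _ _).2 (by
        have h4 : i + 1 - (j + 1) = i - j := by ring
        rwa [h4])
      rw [h2, h3]

end Pool.Agent.H79.OLP
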