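import Pool.Agent.H74.OLP.Targets2

/-!
# Board olp_modules, row OMG: properties of `om`
-/

set_option autoImplicit false

open Pool.Agent.H74.OLP

namespace Pool.Agent.H79.OLP

variable {V E F : Type} [Fintype V] [Fintype E] [Fintype F]

lemma ZG_add (M : CMap V E F) {D D' : E → R} (h : M.ZG D) (h' : M.ZG D') :
    M.ZG fun e => D e + D' e := by
  intro v
  have h1 := h v
  have h2 := h' v
  have h3 := congrArg₂ (fun a b : R => a + b) h1 h2
  simp only [add_zero] at h3
  rw [← Finset.sum_add_distrib] at h3
  refine Eq.trans ?_ h3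
  apply Finset.sum_congr rfl
  intro e _
  split_ifs <;> ring

lemma dot_om (M : CMap V E F) (i : ℕ) (Φ : ℕ → E → R) (x : E → R) :
    CMap.dot (om M i Φ) x = CMap.dot M.D1 x + ∑ m ∈ Finset.range i, CMap.dot (Φ m) x := by
  unfold CMap.dot om
  rw [Finset.sum_comm, ← Finset.sum_add_distrib]
  apply Finset.sum_congr rfl
  intro e _
  rw [add_mul, Finset.sum_mul]

theorem pf_OMG (h1 : T_CSD) (h2 : T_DIR) : T_OMG := by
  intro V E F _ _ _ M hM hSF n N c θ Φ hF hC
  refine ⟨?_, ?_, ?_⟩
  · intro i hi
    induction i with
    | zero =>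
      have h3 : om M 0 Φ = M.D1 := by
        funext e
        simp [om]
      rw [h3]
      exact (h2 V E F M hM).2.2.2
    | succ i ih =>
      have h3 : om M (i + 1) Φ = fun e => om M i Φ e + Φ i e := by
        funext e
        unfold om
        rw [Finset.sum_range_succ, add_assoc]
      rw [h3]
      exact ZG_add M (ih (by omega)) (hC.zg i (by omega))
  · intro i hi j hj
    rw [dot_om, ← (h1 V E F M hM hSF (N j) (c j) (hF.cyc j (by omega))).1, hF.one j (by omega),
      Finset.sum_eq_single j]
    · rw [hC.del j (by omega) j (by omega), if_pos rfl]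
      exact CharTwo.add_self_eq_zero 1
    · intro m hm hmj
      rw [Finset.mem_range] at hm
      rw [hC.del m (by omega) j (by omega), if_neg hmj]
    · intro h
      exact absurd (Finset.mem_range.2 hj) h
  · intro i hi
    rw [dot_om, ← (h1 V E F M hM hSF (N i) (c i) (hF.cyc i hi)).1, hF.one i hi,
      Finset.sum_eq_zero, add_zero]
    intro m hm
    rw [Finset.mem_range] at hm
    rw [hC.del m (by omega) i hi, if_neg (by omega)]

end Pool.Agent.H79.OLP
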